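import Pool.Agent.K7.H12.GL.Defs

/-!
# Project GL, job CASE2: the cardinal part

The set `E` that consists of the points outside of the line `l = p ⊔ q`, of the points of `l` that are
in the span of finitely many of these without `l` being so, and of `p`, `q`, is smaller than the set
of all points, if `p` and `q` are on fewer lines than there are points.
-/

set_option autoImplicit false

namespace Pool.Agent.K7.H53.GL

open Cardinal Pool.Agent.K7.H12.GL

variable {L : Type} [CompleteLattice L] {ρ : L → ℕ}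

/-- the points outside of the line `l` -/
def YY (A : Set L) (l : L) : Set L := {x | x ∈ A ∧ ¬ x ≤ l}

/-- the points of `l` that are in the span of finitely many points outside, `l` not being so -/
def XX (a : L) (A : Set L) (l : L) : Set L :=
  {x | x ∈ A ∧ x ≤ l ∧ ∃ Z : Finset L, (Z : Set L) ⊆ YY A l ∧ x ≤ a ⊔ sSup (Z : Set L) ∧
    ¬ l ≤ a ⊔ sSup (Z : Set L)}

/-- the small set of points -/
def EE (a : L) (A : Set L) (p q : L) : Set L := YY A (p ⊔ q) ∪ XX a A (p ⊔ q) ∪ {p, q}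

theorem not_le_of_ne (a : L) {p q : L} (hp : a ⋖ p) (hq : a ⋖ q) (h : p ≠ q) : ¬ q ≤ p := by
  intro h1
  rcases hp.eq_or_eq hq.le h1 with h2 | h2
  · exact absurd h2 hq.lt.ne'
  · exact h h2.symm

theorem line_cov (hG : Geo L ρ) {a p q : L} (hp : a ⋖ p) (hq : a ⋖ q) (h : p ≠ q) :
    p ⋖ p ⊔ q := hG.semi a q p hq hp.le (not_le_of_ne a hp hq h)

theorem rank_line (hG : Geo L ρ) {a p q : L} (hp : a ⋖ p) (hq : a ⋖ q) (h : p ≠ q) :
    ρ (p ⊔ q) = ρ a + 2 := by
  rw [hG.cov _ _ (line_cov hG hp hq h), hG.cov _ _ hp]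

theorem line_eq (hG : Geo L ρ) {a p q x x' : L} (hp : a ⋖ p) (hq : a ⋖ q) (h : p ≠ q)
    (hx : a ⋖ x) (hx' : a ⋖ x') (hne : x ≠ x') (h1 : x ≤ p ⊔ q) (h2 : x' ≤ p ⊔ q) :
    x ⊔ x' = p ⊔ q := by
  by_contra hc
  have h3 : x ⊔ x' < p ⊔ q := lt_of_le_of_ne (sup_le h1 h2) hc
  have h4 := hG.mono h3
  rw [rank_line hG hp hq h, rank_line hG hx hx' hne] at h4
  exact lt_irrefl _ h4

theorem card_YY (hG : Geo L ρ) (hB : Base L ρ) {a : L} {A : Set L} (hA : ∀ p ∈ A, a ⋖ p)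
    (hinf : ℵ₀ ≤ #A) {p q : L} (hp : p ∈ A) (hq : q ∈ A) (hpq : p ≠ q)
    (h1 : #(Ln A p) < #A) (h2 : #(Ln A q) < #A) : #(YY A (p ⊔ q)) < #A := by
  have hne : ∀ x : YY A (p ⊔ q), (x : L) ≠ p ∧ (x : L) ≠ q := by
    intro x
    refine ⟨fun h => ?_, fun h => ?_⟩
    · exact x.2.2 (h.le.trans le_sup_left)
    · exact x.2.2 (h.le.trans le_sup_right)
  let F : YY A (p ⊔ q) → Ln A p × Ln A q := fun x =>
    (⟨p ⊔ (x : L), x, x.2.1, (hne x).1, rfl⟩, ⟨q ⊔ (x : L), x, x.2.1, (hne x).2, rfl⟩)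
  have hF : Function.Injective F := by
    intro x x' hxx
    have e1 : p ⊔ (x : L) = p ⊔ (x' : L) := congrArg (fun t => ((t.1 : Ln A p) : L)) hxx
    have e2 : q ⊔ (x : L) = q ⊔ (x' : L) := congrArg (fun t => ((t.2 : Ln A q) : L)) hxx
    have hqm : ¬ q ≤ p ⊔ (x : L) := by
      intro hc
      apply x.2.2
      have e3 := line_eq hG (hA p hp) (hA _ x.2.1) (hne x).1.symm (hA p hp) (hA q hq) hpq
        le_sup_left hc
      exact le_sup_right.trans e3.ge
    apply Subtype.ext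
    exact hB.inj a A hA q hq x x.2.1 x' x'.2.1 (p ⊔ (x : L)) le_sup_right
      (by rw [e1]; exact le_sup_right) hqm e2
  calc #(YY A (p ⊔ q)) ≤ #(Ln A p × Ln A q) := mk_le_of_injective hF
    _ = #(Ln A p) * #(Ln A q) := by rw [mk_prod, lift_id, lift_id]
    _ < #A := mul_lt_of_lt hinf h1 h2

theorem card_finset_lt {α : Type} {κ : Cardinal.{0}} (hκ : ℵ₀ ≤ κ) (h : #α < κ) :
    #(Finset α) < κ := by
  rcases finite_or_infinite α with hf | hf
  · exact lt_of_lt_of_le (lt_aleph0_of_finite _) hκ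
  · rw [mk_finset_of_infinite]
    exact h

theorem card_XX (hG : Geo L ρ) {a : L} {A : Set L} (hA : ∀ p ∈ A, a ⋖ p)
    (hinf : ℵ₀ ≤ #A) {p q : L} (hp : p ∈ A) (hq : q ∈ A) (hpq : p ≠ q)
    (h : #(YY A (p ⊔ q)) < #A) : #(XX a A (p ⊔ q)) < #A := by
  classical
  choose Z hZ1 hZ2 hZ3 using fun x : XX a A (p ⊔ q) => x.2.2.2
  have hinj : Function.Injective (fun x : XX a A (p ⊔ q) =>
      (Z x).subtype (fun y => y ∈ YY A (p ⊔ q))) := by
    intro x x' hxx
    have hZ : Z x = Z x' := by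
      have e : ((Z x).subtype (fun y => y ∈ YY A (p ⊔ q))).map (Function.Embedding.subtype _) =
          ((Z x').subtype (fun y => y ∈ YY A (p ⊔ q))).map (Function.Embedding.subtype _) := by
        have hxx' : (Z x).subtype (fun y => y ∈ YY A (p ⊔ q)) =
          (Z x').subtype (fun y => y ∈ YY A (p ⊔ q)) := hxx
        rw [hxx']
      rwa [Finset.subtype_map_of_mem (fun y hy => hZ1 x (Finset.mem_coe.2 hy)),
        Finset.subtype_map_of_mem (fun y hy => hZ1 x' (Finset.mem_coe.2 hy))] at e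
    by_contra hne
    have hne' : (x : L) ≠ (x' : L) := fun h => hne (Subtype.ext h)
    have e := line_eq hG (hA p hp) (hA q hq) hpq (hA _ x.2.1) (hA _ x'.2.1) hne' x.2.2.1 x'.2.2.1
    apply hZ3 x
    rw [← e]
    refine sup_le (hZ2 x) ?_
    rw [hZ]
    exact hZ2 x'
  exact lt_of_le_of_lt (mk_le_of_injective hinj) (card_finset_lt hinf h)

theorem card_EE (hG : Geo L ρ) (hB : Base L ρ) {a : L} {A : Set L} (hA : ∀ p ∈ A, a ⋖ p)
    (hinf : ℵ₀ ≤ #A) {p q : L} (hp : p ∈ A) (hq : q ∈ A) (hpq : p ≠ q)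
    (h1 : #(Ln A p) < #A) (h2 : #(Ln A q) < #A) : #(EE a A p q) < #A := by
  have hY := card_YY hG hB hA hinf hp hq hpq h1 h2
  have hX := card_XX hG hA hinf hp hq hpq hY
  have hpq2 : #({p, q} : Set L) < #A :=
    lt_of_lt_of_le (lt_aleph0_iff_set_finite.2 (Set.toFinite _)) hinf
  refine lt_of_le_of_lt (mk_union_le _ _) (add_lt_of_lt hinf ?_ hpq2)
  exact lt_of_le_of_lt (mk_union_le _ _) (add_lt_of_lt hinf hY hX)

theorem EE_subset {a : L} {A : Set L} {p q : L} (hp : p ∈ A) (hq : q ∈ A) : EE a A p q ⊆ A := by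
  rintro x ((hx | hx) | hx)
  · exact hx.1
  · exact hx.1
  · rcases hx with rfl | hx
    · exact hp
    · rw [Set.mem_singleton_iff] at hx
      rw [hx]
      exact hq

end Pool.Agent.K7.H53.GL
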